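import Pool.Agent.H90.STK.Stmts

/-!
# Sticky families: a sum over the values of the side information
-/

set_option autoImplicit false

namespace Pool.STK.CDS

open Finset Real
open Pool.Agent.H49.Ent Pool.Agent.H32.Dense

variable {Ω ζ S : Type} [Fintype Ω]

lemma isLaw_cond {p : Ω → ℝ} (hp : IsLaw p) (Z : Ω → ζ) {z : ζ} (hz : 0 < law p Z z) :
    IsLaw (cond p Z z) where
  nonneg := cond_nonneg hp.nonneg Z z
  sum_one := sum_cond p Z hz.ne'

lemma cond_dbl {p : Ω → ℝ} (hp : IsLaw p) (Z : Ω → ζ) (z : ζ) :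
    cond (dbl p Z) (fun w => Z w.1) z = pr2 (cond p Z z) (cond p Z z) := by
  classical
  funext w
  obtain ⟨x, y⟩ := w
  unfold pr2 Pool.Agent.H49.Ent.cond
  rw [dbl_law hp.nonneg]
  unfold dbl glue
  by_cases hx : Z x = z
  · by_cases hy : Z y = z
    · subst hx
      simp only [hy, if_true]
      rw [div_mul_div_comm, div_div]
    · have hxy : ¬ Z x = Z y := fun h => hy (h ▸ hx)
      simp only [hx, hy, if_true, if_false, mul_zero]
      rw [if_neg (fun h : z = Z y => hy h.symm), zero_div]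
  · simp only [hx, if_false, zero_mul]

end Pool.STK.CDS

namespace Pool.STK

open Finset Real
open Pool.Agent.H49.Ent Pool.Agent.H32.Dense

theorem cds_thm : CDSStmt := by
  intro Ω ζ S _ _ p Z hp
  refine ⟨fun z hz => CDS.isLaw_cond hp Z hz, fun X => CH_eq_sum hp.nonneg X Z, fun Y => ?_⟩
  classical
  rw [CH_eq_sum (dbl_nonneg hp.nonneg) Y (fun w => Z w.1)]
  have himg : (univ : Finset (Ω × Ω)).image (fun w => Z w.1) = univ.image Z := by
    ext z
    simp only [Finset.mem_image, Finset.mem_univ, true_and, Prod.exists]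
    constructor
    · rintro ⟨x, _, h⟩
      exact ⟨x, h⟩
    · rintro ⟨x, h⟩
      exact ⟨x, x, h⟩
  rw [himg]
  refine Finset.sum_congr rfl fun z _ => ?_
  rw [dbl_law hp.nonneg, CDS.cond_dbl hp]

end Pool.STK
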