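import Pool.Agent.H90.STK.Stmts

/-!
# Sticky families: small doubling with side information
-/

set_option autoImplicit false

namespace Pool.STK.SDC

open Finset Real MeasureTheory
open Pool.Agent.H49.Ent Pool.Agent.H32.Dense

variable {Ω : Type} [Fintype Ω]

lemma CH_unit {S : Type} {p : Ω → ℝ} (hp : IsLaw p) (X : Ω → S) :
    CH p X (fun _ => ()) = H p X := by
  unfold CH
  rw [H_const hp.sum_one, sub_zero]
  exact H_comp_injective hp.nonneg X (f := fun s => (s, ())) fun a b h => (Prod.ext_iff.mp h).1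

lemma isLaw_pr2 {p : Ω → ℝ} (hp : IsLaw p) : IsLaw (pr2 p p) where
  nonneg := fun w => mul_nonneg (hp.nonneg _) (hp.nonneg _)
  sum_one := by
    unfold pr2
    rw [Fintype.sum_prod_type]
    simp only [← Finset.mul_sum, hp.sum_one, mul_one]

end Pool.STK.SDC

namespace Pool.STK

open Finset Real MeasureTheory
open Pool.Agent.H49.Ent Pool.Agent.H32.Dense

theorem sdc_thm (hSDT : SDTStmt) (hCDS : CDSStmt) (hINT : INTStmt) (hIN2 : IN2Stmt) :
    SDCStmt := by
  intro m a ρ ha hρ
  obtain ⟨C₁, hC, k₁, h⟩ := hSDT m a ρ ha hρ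
  refine ⟨C₁, hC, k₁, fun k hk Ω ζ _ p u d Z hp hu hd => ?_⟩
  classical
  obtain ⟨c1, c2, c3⟩ := hCDS Ω ζ (Fin m → ℤ) p Z hp
  have hL0 : ∀ z, 0 ≤ law p Z z := law_nonneg hp.nonneg Z
  -- integrability
  have hX : ∀ z, IntervalIntegrable
      (fun t => law p Z z * H (cond p Z z) (Xp u d t k)) volume 0 1 := by
    intro z
    rcases (hL0 z).eq_or_lt with h0 | h0
    · simp only [← h0, zero_mul]
      exact intervalIntegrable_const
    · have h1 := (hINT m Ω Unit (cond p Z z) u d (c1 z h0)).1 (fun _ => ()) k 0 1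
      simp only [SDC.CH_unit (c1 z h0)] at h1
      exact h1.const_mul _
  have hY : ∀ z, IntervalIntegrable
      (fun t => law p Z z * H (pr2 (cond p Z z) (cond p Z z))
        (fun w => Xp u d t k w.2 - Xp u d t k w.1)) volume 0 1 := by
    intro z
    rcases (hL0 z).eq_or_lt with h0 | h0
    · simp only [← h0, zero_mul]
      exact intervalIntegrable_const
    · have hq := SDC.isLaw_pr2 (c1 z h0)
      have h1 := hIN2 m Ω (Ω × Ω) Unit (pr2 (cond p Z z) (cond p Z z)) Prod.snd Prod.fst u d hq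
        (fun _ => ()) k 0 1
      simp only [SDC.CH_unit hq] at h1
      exact h1.const_mul _
  have e2 : Xav p u d Z k = ∑ z ∈ univ.image Z,
      ∫ t in (0 : ℝ)..1, law p Z z * H (cond p Z z) (Xp u d t k) := by
    unfold Xav
    simp only [c2]
    exact intervalIntegral.integral_finsetSum fun z _ => hX z
  have e3 : Dav p u d Z k = ∑ z ∈ univ.image Z,
      ∫ t in (0 : ℝ)..1, (law p Z z * H (pr2 (cond p Z z) (cond p Z z))
        (fun w => Xp u d t k w.2 - Xp u d t k w.1) -
        law p Z z * H (cond p Z z) (Xp u d t k)) := by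
    unfold Dav
    simp only [c2, c3, ← Finset.sum_sub_distrib]
    exact intervalIntegral.integral_finsetSum fun z _ => (hY z).sub (hX z)
  have e4 : ∑ z ∈ univ.image Z, law p Z z = 1 := by rw [sum_law, hp.sum_one]
  have key : ∀ z ∈ univ.image Z, law p Z z * H (cond p Z z) (Fl d k) ≤
      a * (∫ t in (0 : ℝ)..1, law p Z z * H (cond p Z z) (Xp u d t k)) +
        C₁ * (∫ t in (0 : ℝ)..1, (law p Z z * H (pr2 (cond p Z z) (cond p Z z))
        (fun w => Xp u d t k w.2 - Xp u d t k w.1) -
        law p Z z * H (cond p Z z) (Xp u d t k))) + law p Z z * (ρ * k) := by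
    intro z _
    rcases (hL0 z).eq_or_lt with h0 | h0
    · simp [← h0]
    · have h1 := mul_le_mul_of_nonneg_left (h k hk Ω (cond p Z z) u d (c1 z h0) hu hd) h0.le
      simp only [← mul_sub, intervalIntegral.integral_const_mul]
      linarith [h1]
  rw [c2, e2, e3, Finset.mul_sum, Finset.mul_sum]
  refine (Finset.sum_le_sum key).trans (le_of_eq ?_)
  rw [Finset.sum_add_distrib, Finset.sum_add_distrib, ← Finset.sum_mul, e4, one_mul]

end Pool.STK
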